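import Pool.Agent.H72.HRA.Targets

/-!
Square pencils with nonzero determinant are semistable over the complex numbers (after the
rational case by helper81).
-/

set_option autoImplicit false

open MvPolynomial Module

namespace Pool.Agent.H34.HR

open Pool.Agent.H72.HR Pool.Agent.H72.HRA

theorem pf_DSSA : T_DSSA := by
  classical
  intro n N K A hdet U
  apply Nat.mul_le_mul_left
  obtain ⟨x, hx⟩ : ∃ x : Fin n → ℂ, eval x (Matrix.of (fun i j =>
      (C (A 0 i j) : MvPolynomial (Fin n) ℂ) +
      ∑ k : Fin n, (if k ∈ K then X k * C (A k.succ i j) else 0))).det ≠ 0 := by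
    by_contra hc
    push Not at hc
    apply hdet
    apply MvPolynomial.funext
    intro x
    rw [map_zero]
    convert hc x
  rw [RingHom.map_det] at hx
  set B : Matrix (Fin N) (Fin N) ℂ := (eval x).mapMatrix (Matrix.of (fun i j =>
      (C (A 0 i j) : MvPolynomial (Fin n) ℂ) +
      ∑ k : Fin n, (if k ∈ K then X k * C (A k.succ i j) else 0))) with hB
  have hBe : B = A 0 + ∑ k : Fin n, (if k ∈ K then x k else 0) • A k.succ := by
    ext i j
    simp only [hB, RingHom.mapMatrix_apply, Matrix.map_apply, Matrix.of_apply, map_add, eval_C,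
      map_sum, Matrix.add_apply, Matrix.sum_apply, Matrix.smul_apply, smul_eq_mul]
    congr 1
    apply Finset.sum_congr rfl
    intro k _
    split_ifs <;> simp
  have hinj : Function.Injective (Matrix.vecMulLinear B) := by
    have hu : IsUnit B := (Matrix.isUnit_iff_isUnit_det B).2 (isUnit_iff_ne_zero.2 hx)
    exact Matrix.vecMul_injective_of_isUnit hu
  have hmem : ∀ ξ ∈ XiC K A U, Matrix.vecMulLinear B ξ ∈ U := by
    intro ξ hξ
    obtain ⟨h0, h1⟩ := Submodule.mem_inf.1 hξ
    have e : Matrix.vecMulLinear B ξ = Matrix.vecMulLinear (A 0) ξ +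
        ∑ k : Fin n, (if k ∈ K then x k else 0) •
          Matrix.vecMulLinear (A k.succ) ξ := by
      simp only [Matrix.vecMulLinear_apply]
      rw [hBe, Matrix.vecMul_add, Matrix.vecMul_sum]
      congr 1
      apply Finset.sum_congr rfl
      intro k _
      rw [Matrix.vecMul_smul]
    rw [e]
    refine U.add_mem h0 (U.sum_mem fun k _ => ?_)
    by_cases hk : k ∈ K
    · apply U.smul_mem
      have := (Submodule.mem_iInf _).1 h1 k
      exact (Submodule.mem_iInf _).1 this hk
    · simp [hk]
  let g : XiC K A U →ₗ[ℂ] U := LinearMap.restrict (Matrix.vecMulLinear B) hmem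
  have hg : Function.Injective g := by
    intro a b hab
    apply Subtype.ext
    apply hinj
    have := congrArg Subtype.val hab
    simpa [g, LinearMap.restrict_apply] using this
  exact LinearMap.finrank_le_finrank_of_injective hg

end Pool.Agent.H34.HR
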